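import Mathlib

set_option autoImplicit false
set_option linter.unusedSimpArgs false

/-!
Elementary matrices in `SL₂`.
-/

namespace Pool.Agent.V1128.SL2

open Matrix

universe u

variable {R : Type u} [CommRing R]

/-- The matrix `(1, x; 0, 1)`. -/
def E (x : R) : SpecialLinearGroup (Fin 2) R := ⟨!![1, x; 0, 1], by simp [det_fin_two]⟩

/-- The matrix `(1, 0; x, 1)`. -/
def F (x : R) : SpecialLinearGroup (Fin 2) R := ⟨!![1, 0; x, 1], by simp [det_fin_two]⟩

/-- The matrix `(u, 0; 0, u⁻¹)`. -/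
def D (u : Rˣ) : SpecialLinearGroup (Fin 2) R := ⟨!![(u : R), 0; 0, ((u⁻¹ : Rˣ) : R)], by simp [det_fin_two]⟩

/-- The matrix `(0, 1; -1, 0)`. -/
def W : SpecialLinearGroup (Fin 2) R := ⟨!![0, 1; -1, 0], by simp [det_fin_two]⟩

/-- The matrix `(a, b; 0, a⁻¹)`. -/
def T (a : Rˣ) (b : R) : SpecialLinearGroup (Fin 2) R := ⟨!![(a : R), b; 0, ((a⁻¹ : Rˣ) : R)], by simp [det_fin_two]⟩

theorem ext2 {A B : SpecialLinearGroup (Fin 2) R} (h1 : A.1 0 0 = B.1 0 0) (h2 : A.1 0 1 = B.1 0 1)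
    (h3 : A.1 1 0 = B.1 1 0) (h4 : A.1 1 1 = B.1 1 1) : A = B := by
  apply Subtype.ext
  ext i j
  fin_cases i <;> fin_cases j <;> assumption

theorem mul00 (A B : SpecialLinearGroup (Fin 2) R) : (A * B).1 0 0 = A.1 0 0 * B.1 0 0 + A.1 0 1 * B.1 1 0 := by
  rw [show (A * B).1 = A.1 * B.1 from rfl, Matrix.mul_apply, Fin.sum_univ_two]
theorem mul01 (A B : SpecialLinearGroup (Fin 2) R) : (A * B).1 0 1 = A.1 0 0 * B.1 0 1 + A.1 0 1 * B.1 1 1 := by
  rw [show (A * B).1 = A.1 * B.1 from rfl, Matrix.mul_apply, Fin.sum_univ_two]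
theorem mul10 (A B : SpecialLinearGroup (Fin 2) R) : (A * B).1 1 0 = A.1 1 0 * B.1 0 0 + A.1 1 1 * B.1 1 0 := by
  rw [show (A * B).1 = A.1 * B.1 from rfl, Matrix.mul_apply, Fin.sum_univ_two]
theorem mul11 (A B : SpecialLinearGroup (Fin 2) R) : (A * B).1 1 1 = A.1 1 0 * B.1 0 1 + A.1 1 1 * B.1 1 1 := by
  rw [show (A * B).1 = A.1 * B.1 from rfl, Matrix.mul_apply, Fin.sum_univ_two]

theorem one00 : (1 : SpecialLinearGroup (Fin 2) R).1 0 0 = 1 := rfl
theorem one01 : (1 : SpecialLinearGroup (Fin 2) R).1 0 1 = 0 := rfl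
theorem one10 : (1 : SpecialLinearGroup (Fin 2) R).1 1 0 = 0 := rfl
theorem one11 : (1 : SpecialLinearGroup (Fin 2) R).1 1 1 = 1 := rfl

theorem E00 (x : R) : (E x : SpecialLinearGroup (Fin 2) R).1 0 0 = 1 := rfl
theorem E01 (x : R) : (E x : SpecialLinearGroup (Fin 2) R).1 0 1 = x := rfl
theorem E10 (x : R) : (E x : SpecialLinearGroup (Fin 2) R).1 1 0 = 0 := rfl
theorem E11 (x : R) : (E x : SpecialLinearGroup (Fin 2) R).1 1 1 = 1 := rfl
theorem F00 (x : R) : (F x : SpecialLinearGroup (Fin 2) R).1 0 0 = 1 := rfl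
theorem F01 (x : R) : (F x : SpecialLinearGroup (Fin 2) R).1 0 1 = 0 := rfl
theorem F10 (x : R) : (F x : SpecialLinearGroup (Fin 2) R).1 1 0 = x := rfl
theorem F11 (x : R) : (F x : SpecialLinearGroup (Fin 2) R).1 1 1 = 1 := rfl
theorem D00 (u : Rˣ) : (D u : SpecialLinearGroup (Fin 2) R).1 0 0 = (u : R) := rfl
theorem D01 (u : Rˣ) : (D u : SpecialLinearGroup (Fin 2) R).1 0 1 = 0 := rfl
theorem D10 (u : Rˣ) : (D u : SpecialLinearGroup (Fin 2) R).1 1 0 = 0 := rfl
theorem D11 (u : Rˣ) : (D u : SpecialLinearGroup (Fin 2) R).1 1 1 = ((u⁻¹ : Rˣ) : R) := rfl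
theorem W00 : (W : SpecialLinearGroup (Fin 2) R).1 0 0 = 0 := rfl
theorem W01 : (W : SpecialLinearGroup (Fin 2) R).1 0 1 = 1 := rfl
theorem W10 : (W : SpecialLinearGroup (Fin 2) R).1 1 0 = -1 := rfl
theorem W11 : (W : SpecialLinearGroup (Fin 2) R).1 1 1 = 0 := rfl
theorem T00 (a : Rˣ) (b : R) : (T a b : SpecialLinearGroup (Fin 2) R).1 0 0 = (a : R) := rfl
theorem T01 (a : Rˣ) (b : R) : (T a b : SpecialLinearGroup (Fin 2) R).1 0 1 = b := rfl
theorem T10 (a : Rˣ) (b : R) : (T a b : SpecialLinearGroup (Fin 2) R).1 1 0 = 0 := rfl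
theorem T11 (a : Rˣ) (b : R) : (T a b : SpecialLinearGroup (Fin 2) R).1 1 1 = ((a⁻¹ : Rˣ) : R) := rfl

theorem E_add (x y : R) : E x * E y = E (x + y) := by
  rw [add_comm]
  apply ext2 <;> simp only [mul00, mul01, mul10, mul11, one00, one01, one10, one11, E00, E01, E10, E11, F00, F01, F10, F11, D00, D01, D10, D11, W00, W01, W10, W11, T00, T01, T10, T11, mul_one, one_mul, mul_zero, zero_mul, add_zero, zero_add, neg_mul, mul_neg, neg_neg, neg_zero, Units.mul_inv, Units.inv_mul, inv_inv]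
theorem F_add (x y : R) : F x * F y = F (x + y) := by
  apply ext2 <;> simp only [mul00, mul01, mul10, mul11, one00, one01, one10, one11, E00, E01, E10, E11, F00, F01, F10, F11, D00, D01, D10, D11, W00, W01, W10, W11, T00, T01, T10, T11, mul_one, one_mul, mul_zero, zero_mul, add_zero, zero_add, neg_mul, mul_neg, neg_neg, neg_zero, Units.mul_inv, Units.inv_mul, inv_inv]
theorem E_zero : E (0 : R) = 1 := by
  apply ext2 <;> rfl
theorem F_zero : F (0 : R) = 1 := by
  apply ext2 <;> rfl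
theorem E_inv (x : R) : (E x)⁻¹ = E (-x) := by
  rw [inv_eq_iff_mul_eq_one, E_add, add_neg_cancel, E_zero]
theorem F_inv (x : R) : (F x)⁻¹ = F (-x) := by
  rw [inv_eq_iff_mul_eq_one, F_add, add_neg_cancel, F_zero]
theorem D_inv (u : Rˣ) : (D u)⁻¹ = D u⁻¹ := by
  rw [inv_eq_iff_mul_eq_one]
  apply ext2 <;> simp only [mul00, mul01, mul10, mul11, one00, one01, one10, one11, E00, E01, E10, E11, F00, F01, F10, F11, D00, D01, D10, D11, W00, W01, W10, W11, T00, T01, T10, T11, mul_one, one_mul, mul_zero, zero_mul, add_zero, zero_add, neg_mul, mul_neg, neg_neg, neg_zero, Units.mul_inv, Units.inv_mul, inv_inv]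

theorem W_conj (x : R) : W * E x * W⁻¹ = F (-x) := by
  rw [mul_inv_eq_iff_eq_mul]
  apply ext2 <;> simp only [mul00, mul01, mul10, mul11, one00, one01, one10, one11, E00, E01, E10, E11, F00, F01, F10, F11, D00, D01, D10, D11, W00, W01, W10, W11, T00, T01, T10, T11, mul_one, one_mul, mul_zero, zero_mul, add_zero, zero_add, neg_mul, mul_neg, neg_neg, neg_zero, Units.mul_inv, Units.inv_mul, inv_inv]

theorem W_conj' (x : R) : W * F x * W⁻¹ = E (-x) := by
  rw [mul_inv_eq_iff_eq_mul]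
  apply ext2 <;> simp only [mul00, mul01, mul10, mul11, one00, one01, one10, one11, E00, E01, E10, E11, F00, F01, F10, F11, D00, D01, D10, D11, W00, W01, W10, W11, T00, T01, T10, T11, mul_one, one_mul, mul_zero, zero_mul, add_zero, zero_add, neg_mul, mul_neg, neg_neg, neg_zero, Units.mul_inv, Units.inv_mul, inv_inv]

theorem D_conj_E (u : Rˣ) (x : R) : D u * E x * (D u)⁻¹ = E ((u : R) ^ 2 * x) := by
  rw [mul_inv_eq_iff_eq_mul]
  apply ext2 <;> simp only [mul00, mul01, mul10, mul11, one00, one01, one10, one11, E00, E01, E10, E11, F00, F01, F10, F11, D00, D01, D10, D11, W00, W01, W10, W11, T00, T01, T10, T11, mul_one, one_mul, mul_zero, zero_mul, add_zero, zero_add, neg_mul, mul_neg, neg_neg, neg_zero, Units.mul_inv, Units.inv_mul, inv_inv]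
  linear_combination (-(u : R) * x) * u.mul_inv

theorem D_conj_F (u : Rˣ) (x : R) : D u * F x * (D u)⁻¹ = F (((u⁻¹ : Rˣ) : R) ^ 2 * x) := by
  rw [mul_inv_eq_iff_eq_mul]
  apply ext2 <;> simp only [mul00, mul01, mul10, mul11, one00, one01, one10, one11, E00, E01, E10, E11, F00, F01, F10, F11, D00, D01, D10, D11, W00, W01, W10, W11, T00, T01, T10, T11, mul_one, one_mul, mul_zero, zero_mul, add_zero, zero_add, neg_mul, mul_neg, neg_neg, neg_zero, Units.mul_inv, Units.inv_mul, inv_inv]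
  linear_combination (-((u⁻¹ : Rˣ) : R) * x) * u.mul_inv

theorem D_conj_T (u a : Rˣ) (b : R) : D u * T a b * (D u)⁻¹ = T a ((u : R) ^ 2 * b) := by
  rw [mul_inv_eq_iff_eq_mul]
  apply ext2 <;> simp only [mul00, mul01, mul10, mul11, one00, one01, one10, one11, E00, E01, E10, E11, F00, F01, F10, F11, D00, D01, D10, D11, W00, W01, W10, W11, T00, T01, T10, T11, mul_one, one_mul, mul_zero, zero_mul, add_zero, zero_add, neg_mul, mul_neg, neg_neg, neg_zero, Units.mul_inv, Units.inv_mul, inv_inv]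
  · ring
  · linear_combination (-(u : R) * b) * u.mul_inv
  · ring

theorem T_eq (a : Rˣ) (b c : R) : T a c = E ((a : R) * (c - b)) * T a b := by
  apply ext2 <;> simp only [mul00, mul01, mul10, mul11, one00, one01, one10, one11, E00, E01, E10, E11, F00, F01, F10, F11, D00, D01, D10, D11, W00, W01, W10, W11, T00, T01, T10, T11, mul_one, one_mul, mul_zero, zero_mul, add_zero, zero_add, neg_mul, mul_neg, neg_neg, neg_zero, Units.mul_inv, Units.inv_mul, inv_inv]
  linear_combination (b - c) * a.mul_inv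

/-- Decomposition of a matrix whose upper left entry is a unit. -/
theorem decomp (A : SpecialLinearGroup (Fin 2) R) (a : Rˣ) (ha : (a : R) = A.1 0 0) :
    A = F (((a⁻¹ : Rˣ) : R) * A.1 1 0) * T a (A.1 0 1) := by
  have hdet : A.1 0 0 * A.1 1 1 - A.1 0 1 * A.1 1 0 = 1 := by
    have := A.2
    rwa [det_fin_two] at this
  apply ext2 <;> simp only [mul00, mul01, mul10, mul11, one00, one01, one10, one11, E00, E01, E10, E11, F00, F01, F10, F11, D00, D01, D10, D11, W00, W01, W10, W11, T00, T01, T10, T11, mul_one, one_mul, mul_zero, zero_mul, add_zero, zero_add, neg_mul, mul_neg, neg_neg, neg_zero, Units.mul_inv, Units.inv_mul, inv_inv]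
  · exact ha.symm
  · linear_combination (-A.1 1 0) * a.mul_inv
  · rw [← ha] at hdet
    linear_combination (-A.1 1 1) * a.mul_inv + ((a⁻¹ : Rˣ) : R) * hdet

theorem T_decomp (a : Rˣ) (b : R) : T a b = D a * E (((a⁻¹ : Rˣ) : R) * b) := by
  apply ext2 <;> simp only [mul00, mul01, mul10, mul11, one00, one01, one10, one11, E00, E01, E10, E11, F00, F01, F10, F11, D00, D01, D10, D11, W00, W01, W10, W11, T00, T01, T10, T11, mul_one, one_mul, mul_zero, zero_mul, add_zero, zero_add, neg_mul, mul_neg, neg_neg, neg_zero, Units.mul_inv, Units.inv_mul, inv_inv]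
  linear_combination (-b) * a.mul_inv

theorem E_F_decomp (a : Rˣ) (x y : R) (h : (a : R) = 1 + x * y) :
    E x * F y = F (((a⁻¹ : Rˣ) : R) * y) * D a * E (((a⁻¹ : Rˣ) : R) * x) := by
  apply ext2 <;> simp only [mul00, mul01, mul10, mul11, one00, one01, one10, one11, E00, E01, E10, E11, F00, F01, F10, F11, D00, D01, D10, D11, W00, W01, W10, W11, T00, T01, T10, T11, mul_one, one_mul, mul_zero, zero_mul, add_zero, zero_add, neg_mul, mul_neg, neg_neg, neg_zero, Units.mul_inv, Units.inv_mul, inv_inv]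
  · exact h.symm
  · linear_combination (-x) * a.mul_inv
  · linear_combination (-y) * a.mul_inv
  · linear_combination (-1 - ((a⁻¹ : Rˣ) : R) * x * y) * a.mul_inv + ((a⁻¹ : Rˣ) : R) * h

/-- If `N` is normal and contains `A = F y * T a b`, then it contains these products. -/
theorem mem_of_mem {N : Subgroup (SpecialLinearGroup (Fin 2) R)} (hN : N.Normal) (a : Rˣ) (y b : R)
    (hA : F y * T a b ∈ N) (u : Rˣ) :
    F ((((u⁻¹ : Rˣ) : R) ^ 2 - 1) * y) * E ((a : R) * (((u : R) ^ 2 - 1) * b)) ∈ N := by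
  have h1 := N.mul_mem (hN.conj_mem _ hA (D u)) (N.inv_mem hA)
  have h2 := hN.conj_mem _ h1 (F y)⁻¹
  have h3 : D u * (F y * T a b) * (D u)⁻¹ = F (((u⁻¹ : Rˣ) : R) ^ 2 * y) * T a ((u : R) ^ 2 * b) := by
    rw [← D_conj_F, ← D_conj_T]
    group
  rw [h3, T_eq a b] at h2
  convert h2 using 1
  rw [inv_inv, _root_.mul_inv_rev]
  have h4 : (F y)⁻¹ * (F (((u⁻¹ : Rˣ) : R) ^ 2 * y) * (E ((a : R) * ((u : R) ^ 2 * b - b)) * T a b) *
      ((T a b)⁻¹ * (F y)⁻¹)) * F y = (F y)⁻¹ * F (((u⁻¹ : Rˣ) : R) ^ 2 * y) *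
      E ((a : R) * ((u : R) ^ 2 * b - b)) := by group
  rw [h4, F_inv, F_add]
  congr 2 <;> ring

/-- The inverse of `W`. -/
def V : SpecialLinearGroup (Fin 2) R := ⟨!![0, -1; 1, 0], by simp [det_fin_two]⟩

theorem V00 : (V : SpecialLinearGroup (Fin 2) R).1 0 0 = 0 := rfl
theorem V01 : (V : SpecialLinearGroup (Fin 2) R).1 0 1 = -1 := rfl
theorem V10 : (V : SpecialLinearGroup (Fin 2) R).1 1 0 = 1 := rfl
theorem V11 : (V : SpecialLinearGroup (Fin 2) R).1 1 1 = 0 := rfl

theorem W_inv : (W : SpecialLinearGroup (Fin 2) R)⁻¹ = V := by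
  rw [inv_eq_iff_mul_eq_one]
  apply ext2 <;> simp [mul00, mul01, mul10, mul11, one00, one01, one10, one11, W00, W01, W10, W11, V00, V01, V10, V11]

theorem W_conj00 (A : SpecialLinearGroup (Fin 2) R) : (W * A * W⁻¹).1 0 0 = A.1 1 1 := by
  rw [W_inv]
  simp [mul00, mul01, mul10, mul11, W00, W01, W10, W11, V00, V01, V10, V11]

theorem W_conj10 (A : SpecialLinearGroup (Fin 2) R) : (W * A * W⁻¹).1 1 0 = -A.1 0 1 := by
  rw [W_inv]
  simp [mul00, mul01, mul10, mul11, W00, W01, W10, W11, V00, V01, V10, V11]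

end Pool.Agent.V1128.SL2
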