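import Mathlib
import Pool.Agent.V1128.SL2.Basic

set_option autoImplicit false
set_option linter.unusedSimpArgs false

/-!
`SL₂` over domains of characteristic two: centralizers are abelian; `SL₂(K)` is not soluble.
-/

namespace Pool.Agent.V1128.SL2

open Matrix

universe u

section Comm

variable {R : Type u} [CommRing R]

theorem comm_iff (A B : SpecialLinearGroup (Fin 2) R) : A * B = B * A ↔
    (A.1 0 1 * B.1 1 0 = B.1 0 1 * A.1 1 0 ∧
     (A.1 0 0 - A.1 1 1) * B.1 0 1 = (B.1 0 0 - B.1 1 1) * A.1 0 1 ∧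
     (A.1 0 0 - A.1 1 1) * B.1 1 0 = (B.1 0 0 - B.1 1 1) * A.1 1 0) := by
  constructor
  · intro h
    have h00 := congrArg (fun X : SpecialLinearGroup (Fin 2) R => X.1 0 0) h
    have h01 := congrArg (fun X : SpecialLinearGroup (Fin 2) R => X.1 0 1) h
    have h10 := congrArg (fun X : SpecialLinearGroup (Fin 2) R => X.1 1 0) h
    simp only [mul00, mul01, mul10, mul11] at h00 h01 h10
    refine ⟨?_, ?_, ?_⟩
    · linear_combination h00
    · linear_combination h01
    · linear_combination -h10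
  · rintro ⟨h1, h2, h3⟩
    apply ext2 <;> simp only [mul00, mul01, mul10, mul11]
    · linear_combination h1
    · linear_combination h2
    · linear_combination -h3
    · linear_combination -h1

theorem par {R : Type u} [CommRing R] [IsDomain R] {x1 x2 x3 y1 y2 y3 g1 g2 g3 : R}
    (hg : ¬ (g1 = 0 ∧ g2 = 0 ∧ g3 = 0))
    (a12 : x1 * g2 = g1 * x2) (a31 : x3 * g1 = g3 * x1) (a32 : x3 * g2 = g3 * x2)
    (b12 : y1 * g2 = g1 * y2) (b31 : y3 * g1 = g3 * y1) (b32 : y3 * g2 = g3 * y2) :
    x1 * y2 = y1 * x2 ∧ x3 * y1 = y3 * x1 ∧ x3 * y2 = y3 * x2 := by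
  by_cases h1 : g1 = 0
  · by_cases h2 : g2 = 0
    · have h3 : g3 ≠ 0 := fun h3 => hg ⟨h1, h2, h3⟩
      subst h1 h2
      simp only [mul_zero, zero_mul] at *
      have e1 : x1 = 0 := (mul_eq_zero.mp a31.symm).resolve_left h3
      have e2 : x2 = 0 := (mul_eq_zero.mp a32.symm).resolve_left h3
      have f1 : y1 = 0 := (mul_eq_zero.mp b31.symm).resolve_left h3
      have f2 : y2 = 0 := (mul_eq_zero.mp b32.symm).resolve_left h3
      simp [e1, e2, f1, f2]
    · have h12 : x1 * y2 = y1 * x2 := by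
        apply mul_right_cancel₀ h2
        linear_combination y2 * a12 - x2 * b12
      refine ⟨h12, ?_, ?_⟩ <;> apply mul_right_cancel₀ h2
      · linear_combination y1 * a32 - x1 * b32 - g3 * h12
      · linear_combination y2 * a32 - x2 * b32
  · have h12 : x1 * y2 = y1 * x2 := by
      apply mul_right_cancel₀ h1
      linear_combination y1 * a12 - x1 * b12
    refine ⟨h12, ?_, ?_⟩ <;> apply mul_right_cancel₀ h1
    · linear_combination y1 * a31 - x1 * b31
    · linear_combination y2 * a31 - x2 * b31 + g3 * h12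

/-- Centralizers of noncentral elements are commutative. -/
theorem comm_trans [IsDomain R] {g x y : SpecialLinearGroup (Fin 2) R}
    (hg : ¬ (g.1 0 1 = 0 ∧ g.1 1 0 = 0 ∧ g.1 0 0 = g.1 1 1))
    (hx : x * g = g * x) (hy : y * g = g * y) : x * y = y * x := by
  rw [comm_iff] at hx hy ⊢
  obtain ⟨a1, a2, a3⟩ := hx
  obtain ⟨b1, b2, b3⟩ := hy
  apply par (g1 := g.1 0 1) (g2 := g.1 1 0) (g3 := g.1 0 0 - g.1 1 1) _ a1 a2 a3 b1 b2 b3
  rintro ⟨h1, h2, h3⟩
  exact hg ⟨h1, h2, sub_eq_zero.mp h3⟩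

/-- In characteristic two the centralizer of every nontrivial element is commutative. -/
theorem comm_trans_two [IsDomain R] [CharP R 2] {g x y : SpecialLinearGroup (Fin 2) R} (hg : g ≠ 1)
    (hx : x * g = g * x) (hy : y * g = g * y) : x * y = y * x := by
  refine comm_trans ?_ hx hy
  rintro ⟨h1, h2, h3⟩
  apply hg
  have hdet : g.1 0 0 * g.1 1 1 - g.1 0 1 * g.1 1 0 = 1 := by
    have := g.2
    rwa [det_fin_two] at this
  have h4 : g.1 0 0 = 1 := by
    have h5 : (g.1 0 0 - 1) * (g.1 0 0 - 1) = 0 := by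
      have h6 : (2 : R) = 0 := CharTwo.two_eq_zero
      rw [← h3, h1] at hdet
      linear_combination hdet - (g.1 0 0 - 1) * h6
    exact sub_eq_zero.mp (mul_self_eq_zero.mp h5)
  apply ext2
  · exact h4
  · exact h1
  · exact h2
  · rw [← h3]; exact h4

end Comm

section Sol

variable {K : Type u} [Field K]

theorem D_mem {H : Subgroup (SpecialLinearGroup (Fin 2) K)} (hE : ∀ x, E x ∈ H) (hF : ∀ x, F x ∈ H)
    (a : Kˣ) : D a ∈ H := by
  have h1 := E_F_decomp a ((a : K) - 1) 1 (by ring)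
  have h2 := H.mul_mem (hE ((a : K) - 1)) (hF 1)
  rw [h1] at h2
  exact (H.mul_mem_cancel_left (hF _)).mp ((H.mul_mem_cancel_right (hE _)).mp h2)

open scoped commutatorElement in
theorem derived_mem (u : Kˣ) (hu : (u : K) ^ 2 ≠ 1) (n : ℕ) :
    (∀ x : K, E x ∈ derivedSeries (SpecialLinearGroup (Fin 2) K) n) ∧
    ∀ x : K, F x ∈ derivedSeries (SpecialLinearGroup (Fin 2) K) n := by
  induction n with
  | zero => exact ⟨fun _ => Subgroup.mem_top _, fun _ => Subgroup.mem_top _⟩
  | succ n ih =>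
    obtain ⟨hE, hF⟩ := ih
    have hD := D_mem hE hF
    have hu' : (u : K) ^ 2 - 1 ≠ 0 := sub_ne_zero.mpr hu
    have e1 : ∀ x : K, ⁅D u, E x⁆ = E (((u : K) ^ 2 - 1) * x) := by
      intro x
      rw [commutatorElement_def, D_conj_E, E_inv, E_add]
      congr 1
      ring
    have e2 : ∀ x : K, ⁅D u⁻¹, F x⁆ = F (((u : K) ^ 2 - 1) * x) := by
      intro x
      rw [commutatorElement_def, D_conj_F, F_inv, F_add, inv_inv]
      congr 1
      ring
    constructor
    · intro x
      have := Subgroup.commutator_mem_commutator (hD u) (hE (((u : K) ^ 2 - 1)⁻¹ * x))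
      rw [e1, mul_inv_cancel_left₀ hu'] at this
      exact this
    · intro x
      have := Subgroup.commutator_mem_commutator (hD u⁻¹) (hF (((u : K) ^ 2 - 1)⁻¹ * x))
      rw [e2, mul_inv_cancel_left₀ hu'] at this
      exact this

theorem not_solvable (u : Kˣ) (hu : (u : K) ^ 2 ≠ 1) :
    ¬ Group.IsSolvable (SpecialLinearGroup (Fin 2) K) := by
  rintro ⟨n, hn⟩
  have h1 := (derived_mem u hu n).1 1
  rw [hn, Subgroup.mem_bot] at h1
  have h2 := congrArg (fun X : SpecialLinearGroup (Fin 2) K => X.1 0 1) h1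
  simp [E01, one01] at h2

end Sol

end Pool.Agent.V1128.SL2
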